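import Pool.Agent.Helper98.DE.St

/-!
# Project DE, module DG4: a nonplanar subgraph with at most four edges at a given vertex
-/

set_option autoImplicit false

namespace Pool.Agent.Helper7.DE

open Pool.Agent.Helper98.DE
open Pool.Agent.Helper51.AJ (IsMinor Planar Apex ExMinor Con Tch)
open Pool.Agent.Helper12.NK (rst Kc cnt)
open Pool.Agent.Helper12.MA (dl Srv)

/-- a path from `z` in a connected set -/
private theorem piece {V : Type} (H : SimpleGraph V) (S : Set V) (hS : (H.induce S).Connected)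
    (z x : V) (hz : z ∈ S) (hx : x ∈ S) (hxz : x ≠ z) :
    ∃ (c : V) (T : Set V), T ⊆ S ∧ z ∈ T ∧ x ∈ T ∧ ∀ K : SimpleGraph V,
      (∀ a b, H.Adj a b → a ≠ z → b ≠ z → K.Adj a b) → (H.Adj z c → K.Adj z c) →
      (K.induce T).Connected := by
  classical
  obtain ⟨p0⟩ := hS.preconnected ⟨z, hz⟩ ⟨x, hx⟩
  let p1 := p0.toPath
  let e := SimpleGraph.Embedding.induce (G := H) S
  let p : H.Walk z x := (p1 : (H.induce S).Walk ⟨z, hz⟩ ⟨x, hx⟩).map e.toHom
  have hp : p.IsPath := SimpleGraph.Walk.map_isPath_of_injective e.injective p1.2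
  have hps : ∀ v ∈ p.support, v ∈ S := by
    intro v hv
    have hv' : v ∈ ((p1 : (H.induce S).Walk ⟨z, hz⟩ ⟨x, hx⟩).map e.toHom).support := hv
    rw [SimpleGraph.Walk.support_map, List.mem_map] at hv'
    obtain ⟨w, _, rfl⟩ := hv'
    exact w.2
  clear_value p
  cases p with
  | nil => exact absurd rfl hxz
  | @cons _ c _ h q =>
    rw [SimpleGraph.Walk.cons_isPath_iff] at hp
    refine ⟨c, {v | v ∈ (SimpleGraph.Walk.cons h q).support}, fun v hv => hps v hv,
      SimpleGraph.Walk.start_mem_support _, SimpleGraph.Walk.end_mem_support _, ?_⟩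
    intro K hK1 hK2
    have hed : ∀ f ∈ (SimpleGraph.Walk.cons h q).edges, f ∈ K.edgeSet := by
      intro f hf
      rw [SimpleGraph.Walk.edges_cons, List.mem_cons] at hf
      rcases hf with rfl | hf
      · exact hK2 h
      · induction f using Sym2.ind with
        | _ a b =>
          have h1 : a ∈ q.support := SimpleGraph.Walk.fst_mem_support_of_mem_edges q hf
          have h2 : b ∈ q.support := SimpleGraph.Walk.snd_mem_support_of_mem_edges q hf
          have h3 : H.Adj a b := SimpleGraph.Walk.adj_of_mem_edges q hf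
          refine hK1 a b h3 ?_ ?_
          · rintro rfl
            exact hp.2 h1
          · rintro rfl
            exact hp.2 h2
    have hc := ((SimpleGraph.Walk.cons h q).transfer K hed).connected_induce_support
    rw [SimpleGraph.Walk.support_transfer] at hc
    exact hc

private theorem sing {V : Type} (K : SimpleGraph V) (z : V) :
    (K.induce ({z} : Set V)).Connected := by
  have : Nonempty ({z} : Set V) := ⟨⟨z, rfl⟩⟩
  refine ⟨fun a b => ?_⟩
  have h : a = b := by
    apply Subtype.ext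
    rw [Set.mem_singleton_iff.1 a.2, Set.mem_singleton_iff.1 b.2]
  rw [h]

/-- the edges at `z` reduced to the vertices `c j` -/
private def red {V : Type} (H : SimpleGraph V) (z : V) (c : Fin 4 → V) : SimpleGraph V where
  Adj a b := H.Adj a b ∧ (a = z → ∃ j, b = c j) ∧ (b = z → ∃ j, a = c j)
  symm := ⟨fun _ _ h => ⟨h.1.symm, h.2.2, h.2.1⟩⟩
  loopless := ⟨fun _ h => H.ne_of_adj h.1 rfl⟩

private theorem red1 {V : Type} (H : SimpleGraph V) (z : V) (c : Fin 4 → V) (a b : V)
    (h : H.Adj a b) (ha : a ≠ z) (hb : b ≠ z) : (red H z c).Adj a b :=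
  ⟨h, fun h => absurd h ha, fun h => absurd h hb⟩

private theorem red2 {V : Type} (H : SimpleGraph V) (z : V) (c : Fin 4 → V) (j : Fin 4)
    (h : H.Adj z (c j)) : (red H z c).Adj z (c j) :=
  ⟨h, fun _ => ⟨j, rfl⟩, fun h1 => absurd h1.symm (H.ne_of_adj h)⟩

private theorem keep {V : Type} (H : SimpleGraph V) (z : V) (c : Fin 4 → V) (S : Set V)
    (hS : (H.induce S).Connected) (hz : z ∉ S) : ((red H z c).induce S).Connected := by
  refine hS.mono ?_
  intro a b hab
  have h1 : H.Adj (a : V) (b : V) := hab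
  have h2 : (a : V) ≠ z := fun h => hz (h ▸ a.2)
  have h3 : (b : V) ≠ z := fun h => hz (h ▸ b.2)
  exact red1 H z c _ _ h1 h2 h3

private theorem main {W V : Type} (B : SimpleGraph W) (nb : W → Fin 4 → W)
    (hnb : ∀ w w', B.Adj w w' → ∃ j, w' = nb w j) (H : SimpleGraph V) (z : V)
    (hB : IsMinor B H) :
    ∃ c : Fin 4 → V, IsMinor B (red H z c) := by
  classical
  obtain ⟨φ, h1, h2, h3⟩ := hB
  by_cases hz : ∃ i, z ∈ φ i
  · obtain ⟨i, hi⟩ := hz
    have hzn : ∀ w, w ≠ i → z ∉ φ w := fun w hw h => Set.disjoint_left.1 (h2 w i hw) h hi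
    have data : ∀ j : Fin 4, ∃ (c : V) (T : Set V), T ⊆ φ i ∧ z ∈ T ∧ ∀ K : SimpleGraph V,
        (∀ a b, H.Adj a b → a ≠ z → b ≠ z → K.Adj a b) → (H.Adj z c → K.Adj z c) →
        (K.induce T).Connected ∧
        (B.Adj i (nb i j) → ∃ x ∈ T, ∃ y ∈ φ (nb i j), K.Adj x y) := by
      intro j
      by_cases hadj : B.Adj i (nb i j)
      · obtain ⟨x, hx, y, hy, hxy⟩ := h3 _ _ hadj
        by_cases hxz : x = z
        · subst hxz
          exact ⟨y, {x}, Set.singleton_subset_iff.2 hi, rfl, fun K _ hK2 =>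
            ⟨sing K x, fun _ => ⟨x, rfl, y, hy, hK2 hxy⟩⟩⟩
        · obtain ⟨c, T, hT1, hT2, hT3, hT4⟩ := piece H (φ i) (h1 i) z x hi hx hxz
          refine ⟨c, T, hT1, hT2, fun K hK1 hK2 => ⟨hT4 K hK1 hK2, fun _ =>
            ⟨x, hT3, y, hy, hK1 x y hxy hxz ?_⟩⟩⟩
          rintro rfl
          exact hzn _ (B.ne_of_adj hadj).symm hy
      · exact ⟨z, {z}, Set.singleton_subset_iff.2 hi, rfl, fun K _ _ =>
          ⟨sing K z, fun h => absurd h hadj⟩⟩
    choose c T hT1 hT2 hT3 using data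
    have hT4 : ∀ j, ((red H z c).induce (T j)).Connected ∧
        (B.Adj i (nb i j) → ∃ x ∈ T j, ∃ y ∈ φ (nb i j), (red H z c).Adj x y) :=
      fun j => hT3 j (red H z c) (red1 H z c) (red2 H z c j)
    refine ⟨c, Function.update φ i (⋃ j, T j), ?_, ?_, ?_⟩
    · intro w
      by_cases hw : w = i
      · subst hw
        rw [Function.update_self]
        refine SimpleGraph.induce_connected_of_patches z (Set.mem_iUnion.2 ⟨0, hT2 0⟩) ?_
        intro v hv
        obtain ⟨j, hj⟩ := Set.mem_iUnion.1 hv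
        exact ⟨T j, Set.subset_iUnion T j, hT2 j, hj, (hT4 j).1.preconnected _ _⟩
      · rw [Function.update_of_ne hw]
        exact keep H z c _ (h1 w) (hzn w hw)
    · have hsub : (⋃ j, T j) ⊆ φ i := Set.iUnion_subset hT1
      intro w w' hww
      by_cases hw : w = i
      · subst hw
        rw [Function.update_self, Function.update_of_ne hww.symm]
        exact (h2 w w' hww).mono_left hsub
      · by_cases hw' : w' = i
        · subst hw'
          rw [Function.update_self, Function.update_of_ne hw]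
          exact (h2 w w' hww).mono_right hsub
        · rw [Function.update_of_ne hw, Function.update_of_ne hw']
          exact h2 w w' hww
    · intro w w' hww
      by_cases hw : w = i
      · subst hw
        obtain ⟨j, rfl⟩ := hnb w w' hww
        rw [Function.update_self, Function.update_of_ne (B.ne_of_adj hww).symm]
        obtain ⟨x, hx, y, hy, hxy⟩ := (hT4 j).2 hww
        exact ⟨x, Set.mem_iUnion.2 ⟨j, hx⟩, y, hy, hxy⟩
      · by_cases hw' : w' = i
        · subst hw'
          obtain ⟨j, rfl⟩ := hnb w' w hww.symm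
          rw [Function.update_self, Function.update_of_ne hw]
          obtain ⟨x, hx, y, hy, hxy⟩ := (hT4 j).2 hww.symm
          exact ⟨y, hy, x, Set.mem_iUnion.2 ⟨j, hx⟩, hxy.symm⟩
        · rw [Function.update_of_ne hw, Function.update_of_ne hw']
          obtain ⟨x, hx, y, hy, hxy⟩ := h3 w w' hww
          exact ⟨x, hx, y, hy, red1 H z c x y hxy (fun h => hzn w hw (h ▸ hx))
            (fun h => hzn w' hw' (h ▸ hy))⟩
  · have hzn : ∀ w, z ∉ φ w := fun w h => hz ⟨w, h⟩
    refine ⟨fun _ => z, φ, fun w => keep H z _ _ (h1 w) (hzn w), h2, ?_⟩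
    intro w w' hww
    obtain ⟨x, hx, y, hy, hxy⟩ := h3 w w' hww
    exact ⟨x, hx, y, hy, red1 H z _ x y hxy (fun h => hzn w (h ▸ hx))
      (fun h => hzn w' (h ▸ hy))⟩

/-- the neighbours in `K₃,₃` -/
private def nb33 : Fin 3 ⊕ Fin 3 → Fin 4 → Fin 3 ⊕ Fin 3
  | Sum.inl _ => ![Sum.inr 0, Sum.inr 1, Sum.inr 2, Sum.inr 0]
  | Sum.inr _ => ![Sum.inl 0, Sum.inl 1, Sum.inl 2, Sum.inl 0]

private theorem nb33_spec (w w' : Fin 3 ⊕ Fin 3)
    (h : (completeBipartiteGraph (Fin 3) (Fin 3)).Adj w w') : ∃ j, w' = nb33 w j := by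
  rcases w with a | a <;> rcases w' with b | b
  · simp at h
  · fin_cases b
    · exact ⟨0, rfl⟩
    · exact ⟨1, rfl⟩
    · exact ⟨2, rfl⟩
  · fin_cases b
    · exact ⟨0, rfl⟩
    · exact ⟨1, rfl⟩
    · exact ⟨2, rfl⟩
  · simp at h

/-- DG4 -/
theorem hDG4 : StDG4 := by
  classical
  intro V _ H z hH
  have h0 : IsMinor (⊤ : SimpleGraph (Fin 5)) H ∨
      IsMinor (completeBipartiteGraph (Fin 3) (Fin 3)) H := by
    by_contra hcon
    push Not at hcon
    exact hH hcon
  rcases h0 with h0 | h0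
  · obtain ⟨c, hc⟩ := main (⊤ : SimpleGraph (Fin 5)) (fun w j => w.succAbove j)
      (fun w w' h => by
        obtain ⟨j, hj⟩ := Fin.exists_succAbove_eq (x := w') (y := w) h.symm
        exact ⟨j, hj.symm⟩) H z h0
    exact ⟨red H z c, fun _ _ h => h.1, fun h => h.1 hc, c, fun y hy => hy.2.1 rfl⟩
  · obtain ⟨c, hc⟩ := main (completeBipartiteGraph (Fin 3) (Fin 3)) nb33 nb33_spec H z h0
    exact ⟨red H z c, fun _ _ h => h.1, fun h => h.2 hc, c, fun y hy => hy.2.1 rfl⟩

end Pool.Agent.Helper7.DE
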